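import Mathlib

/-!
# The endomorphism algebra `E = End_T (T × A)` for the trivial extension `T = A ⋉ D A`

`A` is an algebra over a field `K`, `D A` its dual bimodule, `T = A ⋉ D A` the trivial extension.
`A` is a right `T`-module through the projection `T → A`.
-/

set_option autoImplicit false
set_option linter.unusedSectionVars false

namespace Pool.Agent.H379.GS

universe u

variable (K : Type u) [Field K] (A : Type u) [Ring A] [Algebra K A]

/-- The dual bimodule of `A`. -/
def DA : Type u := A →ₗ[K] K

namespace DA

instance : AddCommGroup (DA K A) := inferInstanceAs (AddCommGroup (A →ₗ[K] K))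
instance : Module K (DA K A) := inferInstanceAs (Module K (A →ₗ[K] K))
instance [Module.Finite K A] : Module.Finite K (DA K A) :=
  inferInstanceAs (Module.Finite K (A →ₗ[K] K))

variable {K A}

/-- the underlying linear form -/
def ev (f : DA K A) : A →ₗ[K] K := f

theorem ext {f g : DA K A} (h : ∀ x, ev f x = ev g x) : f = g := LinearMap.ext h

/-- an element from a linear form -/
def mk (f : A →ₗ[K] K) : DA K A := f

@[simp] theorem ev_mk (f : A →ₗ[K] K) : ev (mk f) = f := rfl
@[simp] theorem ev_add (f g : DA K A) (x : A) : ev (f + g) x = ev f x + ev g x := rfl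
@[simp] theorem ev_zero (x : A) : ev (0 : DA K A) x = 0 := rfl
@[simp] theorem ev_ksmul (c : K) (f : DA K A) (x : A) : ev (c • f) x = c * ev f x := rfl

instance : Module A (DA K A) where
  smul a f := mk (ev f ∘ₗ LinearMap.mulRight K a)
  one_smul f := ext fun x => by
    change ev f (x * 1) = ev f x
    rw [mul_one]
  mul_smul a b f := ext fun x => by
    change ev f (x * (a * b)) = ev f ((x * a) * b)
    rw [mul_assoc]
  smul_zero a := rfl
  smul_add a f g := rfl
  add_smul a b f := ext fun x => by
    change ev f (x * (a + b)) = ev f (x * a) + ev f (x * b)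
    rw [mul_add, map_add]
  zero_smul f := ext fun x => by
    change ev f (x * 0) = 0
    rw [mul_zero, map_zero]

instance : Module Aᵐᵒᵖ (DA K A) where
  smul a f := mk (ev f ∘ₗ LinearMap.mulLeft K a.unop)
  one_smul f := ext fun x => by
    change ev f (1 * x) = ev f x
    rw [one_mul]
  mul_smul a b f := ext fun x => by
    change ev f ((b.unop * a.unop) * x) = ev f (b.unop * (a.unop * x))
    rw [mul_assoc]
  smul_zero a := rfl
  smul_add a f g := rfl
  add_smul a b f := ext fun x => by
    change ev f ((a.unop + b.unop) * x) = ev f (a.unop * x) + ev f (b.unop * x)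
    rw [add_mul, map_add]
  zero_smul f := ext fun x => by
    change ev f (0 * x) = 0
    rw [zero_mul, map_zero]

@[simp] theorem ev_smul (a : A) (f : DA K A) (x : A) : ev (a • f) x = ev f (x * a) := rfl
@[simp] theorem ev_op_smul (a : Aᵐᵒᵖ) (f : DA K A) (x : A) :
    ev (a • f) x = ev f (a.unop * x) := rfl

instance : SMulCommClass A Aᵐᵒᵖ (DA K A) where
  smul_comm a b f := ext fun x => by simp [mul_assoc]

instance : IsScalarTower K A (DA K A) where
  smul_assoc c a f := ext fun x => by simp

instance : IsScalarTower K Aᵐᵒᵖ (DA K A) where
  smul_assoc c a f := ext fun x => by simp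

end DA

/-- The trivial extension algebra. -/
abbrev T : Type u := TrivSqZeroExt A (DA K A)

/-- `A` as a right module over the trivial extension. -/
def AT : Type u := A

namespace AT

instance : AddCommGroup (AT A) := inferInstanceAs (AddCommGroup A)
instance : Module K (AT A) := inferInstanceAs (Module K A)
instance [Module.Finite K A] : Module.Finite K (AT A) := inferInstanceAs (Module.Finite K A)

variable {A}

/-- the underlying element -/
def v (x : AT A) : A := x
/-- the element of `A` as an element of the module -/
def mk (x : A) : AT A := x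

@[simp] theorem v_mk (x : A) : v (mk x) = x := rfl
@[simp] theorem v_add (x y : AT A) : v (x + y) = v x + v y := rfl
@[simp] theorem v_zero : v (0 : AT A) = 0 := rfl
theorem ext {x y : AT A} (h : v x = v y) : x = y := h

variable {K}

@[simp] theorem v_ksmul (c : K) (x : AT A) : v (c • x) = c • v x := rfl

instance : Module (T K A)ᵐᵒᵖ (AT A) where
  smul t x := mk (v x * t.unop.fst)
  one_smul x := by
    change v x * (1 : T K A).fst = v x
    simp
  mul_smul s t x := by
    change v x * (t.unop * s.unop).fst = (v x * t.unop.fst) * s.unop.fst
    rw [TrivSqZeroExt.fst_mul, mul_assoc]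
  smul_zero t := by
    change (0 : A) * t.unop.fst = 0
    rw [zero_mul]
  smul_add t x y := by
    change (v x + v y) * t.unop.fst = v x * t.unop.fst + v y * t.unop.fst
    rw [add_mul]
  add_smul s t x := by
    change v x * (s.unop + t.unop).fst = v x * s.unop.fst + v x * t.unop.fst
    rw [TrivSqZeroExt.fst_add, mul_add]
  zero_smul x := by
    change v x * (0 : T K A).fst = 0
    simp

@[simp] theorem v_smul (t : (T K A)ᵐᵒᵖ) (x : AT A) : v (t • x) = v x * t.unop.fst := rfl

instance : IsScalarTower K (T K A)ᵐᵒᵖ (AT A) where
  smul_assoc c t x := by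
    apply ext
    simp

instance : SMulCommClass (T K A)ᵐᵒᵖ K (AT A) where
  smul_comm t c x := by
    apply ext
    simp

end AT

instance : IsScalarTower K (T K A)ᵐᵒᵖ (T K A) := inferInstance
instance : SMulCommClass (T K A)ᵐᵒᵖ K (T K A) := inferInstance

/-- The right `T`-module `T × A`. -/
abbrev MM : Type u := T K A × AT A

/-- The endomorphism algebra of the right `T`-module `T × A`. -/
abbrev E : Type u := Module.End (T K A)ᵐᵒᵖ (MM K A)

end Pool.Agent.H379.GS
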