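import Pool.Agent.H379.GS.Comp
import Pool.Graph.R_seed8.W450.RigDefs

/-!
# Properties of the rings `T` and `E`
-/

set_option autoImplicit false
set_option linter.unusedSectionVars false

namespace Pool.Agent.H379.GS

open TrivSqZeroExt MulOpposite

universe u

/-- `B` is a symmetric `K`-algebra: it is finite-dimensional and isomorphic to its dual as a
bimodule. The dual is a bimodule by `(a g b) x = g (b x a)`. -/
def IsSymmetricAlg (K : Type u) [Field K] (B : Type u) [Ring B] [Algebra K B] : Prop :=
  Module.Finite K B ∧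
    ∃ φ : B ≃ₗ[K] Module.Dual K B, ∀ a b c x : B, φ (a * c * b) x = φ c (b * x * a)

/-- A module `M` is a generator if the regular module is a direct summand of a finite direct
sum of copies of `M`. -/
def IsGenerator (R : Type u) [Ring R] (M : Type u) [AddCommGroup M] [Module R M] : Prop :=
  ∃ (n : ℕ) (i : R →ₗ[R] (Fin n → M)) (p : (Fin n → M) →ₗ[R] R), ∀ x, p (i x) = x

/-- `A` is gendo-symmetric: it is isomorphic to the endomorphism algebra of a finitely generated
generator of the category of right modules over a symmetric algebra `B`. (Right `B`-modules are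
modules over `Bᵐᵒᵖ`.) -/
def IsGendoSymmetric (K : Type u) [Field K] (A : Type u) [Ring A] [Algebra K A] : Prop :=
  ∃ (B : Type u) (_ : Ring B) (_ : Algebra K B) (M : Type u) (_ : AddCommGroup M) (_ : Module K M)
    (_ : Module Bᵐᵒᵖ M) (_ : IsScalarTower K Bᵐᵒᵖ M),
    IsSymmetricAlg K B ∧ Module.Finite Bᵐᵒᵖ M ∧ IsGenerator Bᵐᵒᵖ M ∧
      ∃ e : A ≃+* Module.End Bᵐᵒᵖ M, ∀ (c : K) (a : A) (m : M), e (c • a) m = c • e a m

variable (K : Type u) [Field K] (A : Type u) [Ring A] [Algebra K A] [Module.Finite K A]

instance : Module.Finite K (T K A) := inferInstanceAs (Module.Finite K (A × DA K A))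

/-- the symmetrising form of the trivial extension -/
def sym (x : T K A) : K := DA.ev x.snd 1

theorem sym_mul (x y : T K A) : sym K A (x * y) = DA.ev y.snd x.fst + DA.ev x.snd y.fst := by
  simp [sym]

/-- the isomorphism of `T` with its dual, as a linear map -/
def symMap : T K A →ₗ[K] Module.Dual K (T K A) :=
  LinearMap.mk₂ K (fun x y => sym K A (x * y))
    (fun x x' y => by rw [sym_mul, sym_mul, sym_mul]; simp; ring)
    (fun c x y => by rw [sym_mul, sym_mul]; simp; ring)
    (fun x y y' => by rw [sym_mul, sym_mul, sym_mul]; simp; ring)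
    (fun c x y => by rw [sym_mul, sym_mul]; simp; ring)

theorem symMap_apply (x y : T K A) :
    symMap K A x y = DA.ev y.snd x.fst + DA.ev x.snd y.fst := sym_mul K A x y

theorem symMap_inj : Function.Injective (symMap K A) := by
  rw [← LinearMap.ker_eq_bot, LinearMap.ker_eq_bot']
  intro x hx
  have h1 : ∀ y : T K A, DA.ev y.snd x.fst + DA.ev x.snd y.fst = 0 := by
    intro y
    rw [← symMap_apply, hx]
    rfl
  apply TrivSqZeroExt.ext
  · refine (Module.forall_dual_apply_eq_zero_iff K x.fst).1 fun f => ?_
    have := h1 (inr (DA.mk f))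
    simpa using this
  · refine DA.ext fun a => ?_
    have := h1 (inl a)
    simpa using this

theorem t_symmetric : IsSymmetricAlg K (T K A) := by
  refine ⟨inferInstance, LinearEquiv.ofBijective (symMap K A) ⟨symMap_inj K A, ?_⟩, ?_⟩
  · exact (LinearMap.injective_iff_surjective_of_finrank_eq_finrank
      (Subspace.dual_finrank_eq).symm).1 (symMap_inj K A)
  · intro a b c x
    rw [LinearEquiv.ofBijective_apply, LinearEquiv.ofBijective_apply, symMap_apply, symMap_apply]
    simp [mul_assoc]
    ring

theorem mm_generator : IsGenerator (T K A)ᵐᵒᵖ (MM K A) := by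
  refine ⟨1, LinearMap.pi fun _ => (LinearMap.inl _ _ _) ∘ₗ
    ({ toFun := unop, map_add' := fun _ _ => rfl, map_smul' := fun _ _ => rfl } :
      (T K A)ᵐᵒᵖ →ₗ[(T K A)ᵐᵒᵖ] T K A),
    ({ toFun := op, map_add' := fun _ _ => rfl, map_smul' := fun _ _ => rfl } :
      T K A →ₗ[(T K A)ᵐᵒᵖ] (T K A)ᵐᵒᵖ) ∘ₗ LinearMap.fst _ _ _ ∘ₗ LinearMap.proj 0, ?_⟩
  intro x
  rfl

instance mm_finite : Module.Finite (T K A)ᵐᵒᵖ (MM K A) :=
  Module.Finite.of_restrictScalars_finite K (T K A)ᵐᵒᵖ (MM K A)

theorem e_gendo : IsGendoSymmetric K (E K A) := by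
  refine ⟨T K A, inferInstance, inferInstance, MM K A, inferInstance, inferInstance,
    inferInstance, inferInstance, t_symmetric K A, inferInstance, mm_generator K A,
    RingEquiv.refl _, ?_⟩
  intro c a m
  rfl

instance e_finite : Module.Finite K (E K A) := by
  let g : E K A →ₗ[K] (MM K A →ₗ[K] MM K A) :=
    { toFun := fun e => e.restrictScalars K
      map_add' := fun _ _ => rfl
      map_smul' := fun _ _ => rfl }
  exact Module.Finite.of_injective g (LinearMap.restrictScalars_injective K)

variable {K A}

/-- elements of `E` are determined by their values on two elements -/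
theorem E.ext' {e e' : E K A} (h1 : e (1, AT.mk 0) = e' (1, AT.mk 0))
    (h2 : e (0, AT.mk 1) = e' (0, AT.mk 1)) : e = e' := by
  refine LinearMap.ext fun x => ?_
  rw [E.map_dec e, E.map_dec e', h1, h2]

/-- elements with vanishing entries `tt`, `aa`, `bb` have square zero -/
theorem E.sq_zero {e : E K A} (h1 : tt e = 0) (h2 : aa e = 0) (h3 : bb e = 0) (e' : E K A) :
    e * e' * e = 0 := by
  have key : ∀ x : MM K A, x.1.fst = 0 → AT.v x.2 = 0 → e x = 0 := by
    intro x hx1 hx2
    rw [E.map_dec e x, hx2]
    refine MM.ext ?_ ?_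
    · apply TrivSqZeroExt.ext
      · simp [hx1]
      · have : (e (1, AT.mk 0)).1.fst = 0 := h1
        simp [this, hx1]
    · simp [hx1]
  have hf : ∀ x : MM K A, (e' (e x)).1.fst = 0 ∧ AT.v (e' (e x)).2 = 0 := by
    intro x
    have h4 : (e x).1.fst = 0 := by
      rw [E.map_dec e x]
      have : (e (1, AT.mk 0)).1.fst = 0 := h1
      simp [this, ff]
    have h5 : AT.v (e x).2 = 0 := by
      rw [E.map_dec e x]
      have : AT.v (e (1, AT.mk 0)).2 = 0 := h2
      have h' : AT.v (e (0, AT.mk 1)).2 = 0 := h3
      simp [this, h']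
    rw [E.map_dec e' (e x)]
    simp [h4, h5]
  refine LinearMap.ext fun x => ?_
  rw [Module.End.mul_apply, Module.End.mul_apply]
  exact key _ (hf x).1 (hf x).2

/-- the element of `E` with `(1,1)` entry `φ ∈ D A` -/
def corner (φ : DA K A) : E K A where
  toFun x := (inr φ * x.1, 0)
  map_add' x y := by
    refine MM.ext ?_ ?_
    · simp [mul_add]
    · simp
  map_smul' t x := by
    refine MM.ext ?_ ?_
    · simp [mul_assoc]
    · simp

theorem e_not_semisimple [Nontrivial A] : ¬ IsSemisimpleRing (E K A) := by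
  intro hss
  obtain ⟨f, hf⟩ : ∃ f : A →ₗ[K] K, f 1 ≠ 0 := by
    by_contra hcon
    push Not at hcon
    exact one_ne_zero ((Module.forall_dual_apply_eq_zero_iff K (1 : A)).1 hcon)
  let c : E K A := corner (DA.mk f)
  have hc : c ≠ 0 := by
    intro h
    have h1 := congrArg (fun e : E K A => DA.ev (e (1, AT.mk 0)).1.snd 1) h
    simp [c, corner] at h1
    exact hf h1
  have hz : ∀ e' : E K A, c * e' * c = 0 := by
    intro e'
    refine E.sq_zero ?_ ?_ ?_ e'
    · simp [c, corner, tt]
    · simp [c, corner, aa]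
    · simp [c, corner, bb]
  -- the left ideal generated by `c` has a complement
  obtain ⟨J, hJ⟩ := exists_isCompl (Submodule.span (E K A) {c})
  have h1 : (1 : E K A) ∈ Submodule.span (E K A) {c} ⊔ J := by
    rw [hJ.sup_eq_top]; trivial
  obtain ⟨y, hy, z, hz', hyz⟩ := Submodule.mem_sup.1 h1
  obtain ⟨r, rfl⟩ := Submodule.mem_span_singleton.1 hy
  have h2 : c = c * z := by
    have := congrArg (fun w => c * w) hyz
    simp only [mul_add, mul_one, smul_eq_mul] at this
    rw [← mul_assoc, hz r, zero_add] at this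
    exact this.symm
  have h3 : c ∈ J := by
    rw [h2]
    exact J.smul_mem c hz'
  have h4 : c ∈ Submodule.span (E K A) {c} ⊓ J := ⟨Submodule.mem_span_singleton_self c, h3⟩
  rw [hJ.inf_eq_bot] at h4
  exact hc h4

theorem e_connected (hA : W450.Rig.IsConnectedRing A) : W450.Rig.IsConnectedRing (E K A) := by
  obtain ⟨hA1, hA2⟩ := hA
  have hnt : Nontrivial (E K A) := by
    refine ⟨⟨0, 1, fun h => ?_⟩⟩
    have h1 := congrArg (fun e : E K A => bb e) h
    simp at h1
  refine ⟨hnt, ?_⟩
  -- a central idempotent with `bb c = 0` vanishes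
  have key : ∀ c : E K A, (∀ a, c * a = a * c) → c * c = c → bb c = 0 → c = 0 := by
    intro c hc hcc hb
    have h1 := hc (row 1 0)
    have h2 := hc (row 0 1)
    have ht : tt c = 0 := by
      have := congrArg (fun e : E K A => aa e) h1
      simp [hb] at this
      exact this.symm
    have ha : aa c = 0 := by
      have := congrArg (fun e : E K A => aa e) h2
      simp at this
      exact this.symm
    have := E.sq_zero ht ha hb 1
    rw [mul_one, hcc] at this
    exact this
  intro c hc hcc
  have hbc : ∀ a : A, bb c * a = a * bb c := by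
    intro a
    have h1 := congrArg (fun e : E K A => bb e) (hc (row 0 a))
    simpa using h1
  have hbb : bb c * bb c = bb c := by
    have h1 := congrArg (fun e : E K A => bb e) hcc
    simpa using h1
  rcases hA2 (bb c) hbc hbb with h | h
  · exact Or.inl (key c hc hcc h)
  · right
    have h3 : (1 - c) = 0 := by
      refine key (1 - c) ?_ ?_ ?_
      · intro a
        rw [sub_mul, mul_sub, one_mul, mul_one, hc a]
      · have h6 : (1 - c) * (1 - c) = 1 - c - (c - c * c) := by
          simp only [mul_sub, sub_mul, mul_one, one_mul]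
        rw [h6, hcc, sub_self, sub_zero]
      · have h5 : bb (1 - c + c) = bb (1 - c) + bb c := bb_add _ _
        rw [sub_add_cancel, bb_one, h] at h5
        exact (add_eq_right.1 h5.symm)
    exact (sub_eq_zero.1 h3).symm

end Pool.Agent.H379.GS
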