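import Pool.Agent.H379.GS.Fun

/-!
# The functor as a functor of module categories, and the comparison of `o_k`
-/

set_option autoImplicit false
set_option linter.unusedSectionVars false

namespace Pool.Agent.H379.GS

open TrivSqZeroExt MulOpposite CategoryTheory CategoryTheory.Limits CategoryTheory.Abelian

universe u

variable (K : Type u) [Field K] (A : Type u) [Ring A] [Algebra K A] [Module.Finite K A]

/-- the functor `X ↦ X ⊗_A e₂E` -/
noncomputable def FF : ModuleCat.{u} Aᵐᵒᵖ ⥤ ModuleCat.{u} (E K A)ᵐᵒᵖ where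
  obj X := ModuleCat.of (E K A)ᵐᵒᵖ (FX K A X)
  map f := ModuleCat.ofHom (FX.map f.hom)
  map_id X := by
    ext x <;> rfl
  map_comp f g := by
    ext x <;> rfl

instance : (FF K A).Additive where
  map_add {X Y f g} := by
    ext x
    rfl

instance : (FF K A).Full where
  map_surjective {X Y} g := by
    obtain ⟨f, hf⟩ := FX.exists_map g.hom
    exact ⟨ModuleCat.ofHom f, by
      change ModuleCat.ofHom (FX.map f) = g
      rw [hf]
      rfl⟩

instance : (FF K A).Faithful where
  map_injective {X Y f g} h := by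
    have h1 : (FX.map f.hom : FX K A X →ₗ[(E K A)ᵐᵒᵖ] FX K A Y) = FX.map g.hom :=
      congrArg ModuleCat.Hom.hom h
    exact ModuleCat.hom_ext (FX.map_inj h1)

theorem ff_exact (S : ShortComplex (ModuleCat.{u} Aᵐᵒᵖ)) (hS : S.Exact) :
    (S.map (FF K A)).Exact := by
  rw [ShortComplex.moduleCat_exact_iff] at hS ⊢
  intro x hx
  have h1 : S.g.hom (x : FX K A S.X₂).p = 0 := congrArg FX.p hx
  have h2 : S.g.hom (x : FX K A S.X₂).q = 0 := congrArg FX.q hx
  obtain ⟨y1, hy1⟩ := hS _ h1
  obtain ⟨y2, hy2⟩ := hS _ h2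
  exact ⟨(⟨y1, y2⟩ : FX K A S.X₁), FX.ext hy1 hy2⟩

instance : PreservesFiniteLimits (FF K A) := by
  have := ((CategoryTheory.Functor.exact_tfae (FF K A)).out 1 3).mp (ff_exact K A)
  exact this.1

instance : PreservesFiniteColimits (FF K A) := by
  have := ((CategoryTheory.Functor.exact_tfae (FF K A)).out 1 3).mp (ff_exact K A)
  exact this.2

instance : (FF K A).PreservesProjectiveObjects where
  projective_obj {X} hX := by
    have : Module.Projective Aᵐᵒᵖ X := (IsProjective.iff_projective X).2 hX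
    have h : Module.Projective (E K A)ᵐᵒᵖ (FX K A X) := FX.projective
    exact (IsProjective.iff_projective (R := (E K A)ᵐᵒᵖ) (FX K A X)).1 h

/-- the functor preserves all `Ext` groups -/
theorem ff_ext (X Y : ModuleCat.{u} Aᵐᵒᵖ) (n : ℕ) (h : Subsingleton (Ext X Y n)) :
    Subsingleton (Ext ((FF K A).obj X) ((FF K A).obj Y) n) :=
  ((FF K A).mapExt_bijective_of_preservesProjectiveObjects X Y n).surjective.subsingleton

section indec

variable {C : Type*} [Category* C] [Abelian C] {D : Type*} [Category* D] [Abelian D]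

/-- a fully faithful additive functor preserves indecomposable objects -/
theorem indec_of_full_faithful (F : C ⥤ D) [F.Additive] [F.Full] [F.Faithful] {X : C}
    (hX : Indecomposable X) : Indecomposable (F.obj X) := by
  refine ⟨fun h => hX.1 ?_, ?_⟩
  · rw [IsZero.iff_id_eq_zero] at h ⊢
    apply F.map_injective
    rw [F.map_id, h, F.map_zero]
  · intro Y Z e
    obtain ⟨q, hq⟩ := F.map_surjective (e.hom ≫ biprod.fst ≫ biprod.inl ≫ e.inv)
    have hqq : q ≫ q = q := by
      apply F.map_injective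
      rw [F.map_comp, hq]
      simp
    have hq' : (𝟙 X - q) ≫ q = 0 := by
      rw [Preadditive.sub_comp, Category.id_comp, hqq, sub_self]
    have hq'' : q ≫ (𝟙 X - q) = 0 := by
      rw [Preadditive.comp_sub, Category.comp_id, hqq, sub_self]
    let i1 := kernel.ι (𝟙 X - q)
    let i2 := kernel.ι q
    let r1 : X ⟶ kernel (𝟙 X - q) := kernel.lift _ q hq''
    let r2 : X ⟶ kernel q := kernel.lift _ (𝟙 X - q) hq'
    have h1 : r1 ≫ i1 = q := kernel.lift_ι _ _ _
    have h2 : r2 ≫ i2 = 𝟙 X - q := kernel.lift_ι _ _ _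
    have hi1 : i1 ≫ q = i1 := by
      have : i1 ≫ (𝟙 X - q) = 0 := kernel.condition _
      rw [Preadditive.comp_sub, Category.comp_id, sub_eq_zero] at this
      exact this.symm
    have hi2 : i2 ≫ q = 0 := kernel.condition _
    have e11 : i1 ≫ r1 = 𝟙 _ := by
      rw [← cancel_mono i1, Category.assoc, h1, hi1, Category.id_comp]
    have e22 : i2 ≫ r2 = 𝟙 _ := by
      rw [← cancel_mono i2, Category.assoc, h2, Preadditive.comp_sub, hi2, Category.comp_id,
        sub_zero, Category.id_comp]
    have e12 : i1 ≫ r2 = 0 := by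
      rw [← cancel_mono i2, Category.assoc, h2, Preadditive.comp_sub, hi1, Category.comp_id,
        sub_self, zero_comp]
    have e21 : i2 ≫ r1 = 0 := by
      rw [← cancel_mono i1, Category.assoc, h1, hi2, zero_comp]
    let iso : X ≅ kernel (𝟙 X - q) ⊞ kernel q :=
      { hom := biprod.lift r1 r2
        inv := biprod.desc i1 i2
        hom_inv_id := by
          rw [biprod.lift_desc, h1, h2, add_sub_cancel]
        inv_hom_id := by
          apply biprod.hom_ext'
          · apply biprod.hom_ext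
            · simp [e11]
            · simp [e12]
          · apply biprod.hom_ext
            · simp [e21]
            · simp [e22] }
    rcases hX.2 _ _ iso with h | h
    · left
      have hz : q = 0 := by
        rw [← h1, h.eq_of_tgt r1 0, zero_comp]
      rw [hz, F.map_zero] at hq
      rw [IsZero.iff_id_eq_zero]
      calc 𝟙 Y = biprod.inl ≫ e.inv ≫ (e.hom ≫ biprod.fst ≫ biprod.inl ≫ e.inv) ≫ e.hom ≫
            biprod.fst := by simp
        _ = 0 := by rw [← hq]; simp
    · right
      have hz : q = 𝟙 X := by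
        have : 𝟙 X - q = 0 := by rw [← h2, h.eq_of_tgt r2 0, zero_comp]
        exact (sub_eq_zero.1 this).symm
      rw [hz, F.map_id] at hq
      rw [IsZero.iff_id_eq_zero]
      calc 𝟙 Z = biprod.inr ≫ e.inv ≫ 𝟙 (F.obj X) ≫ e.hom ≫ biprod.snd := by simp
        _ = 0 := by rw [hq]; simp

end indec

open W450.Rig

/-- the size does not decrease -/
theorem ff_size (M : ModuleCat.{u} Aᵐᵒᵖ) : size M ≤ size ((FF K A).obj M) := by
  let f : Quotient (isIsomorphicSetoid (ModuleCat.{u} Aᵐᵒᵖ)) →
      Quotient (isIsomorphicSetoid (ModuleCat.{u} (E K A)ᵐᵒᵖ)) :=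
    Quotient.map (FF K A).obj (fun X Y ⟨h⟩ => ⟨(FF K A).mapIso h⟩)
  refine Set.encard_le_encard_of_injOn (f := f) ?_ ?_
  · rintro _ ⟨X, Y, hX, ⟨e⟩, rfl⟩
    have := preservesBinaryBiproducts_of_preservesBiproducts (FF K A)
    exact ⟨(FF K A).obj X, (FF K A).obj Y, indec_of_full_faithful _ hX,
      ⟨(FF K A).mapIso e ≪≫ (FF K A).mapBiprod X Y⟩, rfl⟩
  · intro c _ c' _ h
    induction c using Quotient.inductionOn with | _ X =>
    induction c' using Quotient.inductionOn with | _ Y =>
    obtain ⟨e⟩ : Nonempty ((FF K A).obj X ≅ (FF K A).obj Y) := Quotient.exact h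
    exact Quotient.sound ⟨(FF K A).preimageIso e⟩

theorem ff_rigid (k : ℕ) (M : ModuleCat.{u} Aᵐᵒᵖ) (hM : IsRigid A k M) :
    IsRigid (E K A) k ((FF K A).obj M) := fun i h1 h2 => ff_ext K A M M i (hM i h1 h2)

theorem ff_finite (M : ModuleCat.{u} Aᵐᵒᵖ) (hM : Module.Finite Aᵐᵒᵖ M) :
    Module.Finite (E K A)ᵐᵒᵖ ((FF K A).obj M) :=
  inferInstanceAs (Module.Finite (E K A)ᵐᵒᵖ (FX K A M))

/-- `o_k(A) ≤ o_k(E)` -/
theorem oSize_le (k : ℕ) : oSize A k ≤ oSize (E K A) k := by
  unfold oSize
  refine iSup_le fun M => iSup_le fun hM => iSup_le fun hr => ?_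
  exact (ff_size K A M).trans (le_iSup_of_le ((FF K A).obj M)
    (le_iSup_of_le (ff_finite K A M hM) (le_iSup_of_le (ff_rigid K A k M hr) le_rfl)))

end Pool.Agent.H379.GS
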