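import Pool.Agent.H379.GS.Alg

/-!
# The entries of an element of `E`
-/

set_option autoImplicit false
set_option linter.unusedSectionVars false

namespace Pool.Agent.H379.GS

open TrivSqZeroExt MulOpposite

universe u

variable {K : Type u} [Field K] {A : Type u} [Ring A] [Algebra K A]

theorem MM.ext {x y : MM K A} (h1 : x.1 = y.1) (h2 : AT.v x.2 = AT.v y.2) : x = y :=
  Prod.ext h1 (AT.ext h2)

/-- decomposition of an element of `T × A` -/
theorem MM.dec (x : MM K A) : x = op x.1 • ((1, AT.mk 0) : MM K A) +
    op (inl (AT.v x.2) : T K A) • ((0, AT.mk 1) : MM K A) := by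
  refine MM.ext ?_ ?_
  · simp
  · simp

/-- the image of an element of `T × A` -/
theorem E.map_dec (e : E K A) (x : MM K A) :
    e x = op x.1 • e (1, AT.mk 0) + op (inl (AT.v x.2) : T K A) • e (0, AT.mk 1) := by
  conv_lhs => rw [MM.dec x]
  rw [map_add, map_smul, map_smul]

/-- the `(1,1)` entry modulo `D A` -/
def tt (e : E K A) : A := (e (1, AT.mk 0)).1.fst
/-- the `(2,1)` entry -/
def aa (e : E K A) : A := AT.v (e (1, AT.mk 0)).2
/-- the `(2,2)` entry -/
def bb (e : E K A) : A := AT.v (e (0, AT.mk 1)).2

/-- the `(1,2)` entry is in `D A` -/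
theorem ff [Module.Finite K A] (e : E K A) : (e (0, AT.mk 1)).1.fst = 0 := by
  -- `(0,1) * φ = 0` for `φ ∈ D A`
  set c : A := (e (0, AT.mk 1)).1.fst with hc
  have h : ∀ φ : DA K A, c • φ = 0 := by
    intro φ
    have h1 : op (inr φ : T K A) • ((0, AT.mk 1) : MM K A) = 0 := by
      refine MM.ext ?_ ?_ <;> simp
    have h2 := congrArg e h1
    rw [map_smul, map_zero] at h2
    have h3 := congrArg (fun z : MM K A => z.1.snd) h2
    simpa using h3
  by_contra hne
  obtain ⟨f, hf⟩ : ∃ f : A →ₗ[K] K, f c ≠ 0 := by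
    by_contra hcon
    push Not at hcon
    exact hne ((Module.forall_dual_apply_eq_zero_iff K c).1 hcon)
  have h4 := congrArg (fun g : DA K A => DA.ev g 1) (h (DA.mk f))
  simp at h4
  exact hf h4

@[simp] theorem tt_one : tt (1 : E K A) = 1 := by simp [tt]
@[simp] theorem aa_one : aa (1 : E K A) = 0 := by simp [aa]
@[simp] theorem bb_one : bb (1 : E K A) = 1 := by simp [bb]
@[simp] theorem tt_zero : tt (0 : E K A) = 0 := by simp [tt]
@[simp] theorem aa_zero : aa (0 : E K A) = 0 := by simp [aa]
@[simp] theorem bb_zero : bb (0 : E K A) = 0 := by simp [bb]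
@[simp] theorem tt_add (e e' : E K A) : tt (e + e') = tt e + tt e' := by simp [tt]
@[simp] theorem aa_add (e e' : E K A) : aa (e + e') = aa e + aa e' := by simp [aa]
@[simp] theorem bb_add (e e' : E K A) : bb (e + e') = bb e + bb e' := by simp [bb]

variable [Module.Finite K A]

@[simp] theorem tt_mul (e e' : E K A) : tt (e * e') = tt e * tt e' := by
  unfold tt
  rw [Module.End.mul_apply, E.map_dec e (e' _)]
  simp [ff]

@[simp] theorem aa_mul (e e' : E K A) : aa (e * e') = aa e * tt e' + bb e * aa e' := by
  unfold aa tt bb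
  rw [Module.End.mul_apply, E.map_dec e (e' _)]
  simp

@[simp] theorem bb_mul (e e' : E K A) : bb (e * e') = bb e * bb e' := by
  unfold bb
  rw [Module.End.mul_apply, E.map_dec e (e' _)]
  simp [ff]

omit [Module.Finite K A]

/-- the element with second row `(a, b)` -/
def row (a b : A) : E K A where
  toFun x := (0, AT.mk (a * x.1.fst + b * AT.v x.2))
  map_add' x y := by
    refine MM.ext ?_ ?_
    · simp
    · simp [mul_add]; abel
  map_smul' t x := by
    refine MM.ext ?_ ?_
    · simp
    · simp [add_mul, mul_assoc]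

@[simp] theorem row_apply (a b : A) (x : MM K A) :
    row a b x = (0, AT.mk (a * x.1.fst + b * AT.v x.2)) := rfl

@[simp] theorem tt_row (a b : A) : tt (row a b : E K A) = 0 := by simp [tt]
@[simp] theorem aa_row (a b : A) : aa (row a b : E K A) = a := by simp [aa]
@[simp] theorem bb_row (a b : A) : bb (row a b : E K A) = b := by simp [bb]

variable [Module.Finite K A]

theorem row_mul (a b : A) (e : E K A) :
    row a b * e = row (a * tt e + b * aa e) (b * bb e) := by
  refine LinearMap.ext fun x => ?_
  rw [Module.End.mul_apply, row_apply, row_apply, E.map_dec e x]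
  refine MM.ext rfl ?_
  simp [tt, aa, bb, ff, mul_add, add_mul, mul_assoc, add_assoc]

end Pool.Agent.H379.GS
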