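import Pool.Agent.H379.GS.Ring

/-!
# The functor `X ↦ X ⊗_A e₂E` from right `A`-modules to right `E`-modules

The underlying group of the image is `X × X`.
-/

set_option autoImplicit false
set_option linter.unusedSectionVars false

namespace Pool.Agent.H379.GS

open TrivSqZeroExt MulOpposite CategoryTheory CategoryTheory.Limits

universe u

variable (K : Type u) [Field K] (A : Type u) [Ring A] [Algebra K A] [Module.Finite K A]

section obj

variable (X : Type u) [AddCommGroup X] [Module Aᵐᵒᵖ X]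

/-- The right `E`-module of a right `A`-module `X`. -/
@[ext] structure FX (K : Type u) [Field K] (A : Type u) [Ring A] [Algebra K A]
    (X : Type u) [AddCommGroup X] [Module Aᵐᵒᵖ X] where
  p : X
  q : X

namespace FX

variable {K A X}

instance : Zero (FX K A X) := ⟨⟨0, 0⟩⟩
instance : Add (FX K A X) := ⟨fun x y => ⟨x.p + y.p, x.q + y.q⟩⟩
instance : Neg (FX K A X) := ⟨fun x => ⟨-x.p, -x.q⟩⟩

@[simp] theorem p_zero : (0 : FX K A X).p = 0 := rfl
@[simp] theorem q_zero : (0 : FX K A X).q = 0 := rfl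
@[simp] theorem p_add (x y : FX K A X) : (x + y).p = x.p + y.p := rfl
@[simp] theorem q_add (x y : FX K A X) : (x + y).q = x.q + y.q := rfl
@[simp] theorem p_neg (x : FX K A X) : (-x).p = -x.p := rfl
@[simp] theorem q_neg (x : FX K A X) : (-x).q = -x.q := rfl

instance : AddCommGroup (FX K A X) where
  add_assoc x y z := by ext <;> simp [add_assoc]
  zero_add x := by ext <;> simp
  add_zero x := by ext <;> simp
  add_comm x y := by ext <;> simp [add_comm]
  neg_add_cancel x := by ext <;> simp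
  nsmul := nsmulRec
  zsmul := zsmulRec

instance : Module (E K A)ᵐᵒᵖ (FX K A X) where
  smul e x := ⟨op (tt e.unop) • x.p + op (aa e.unop) • x.q, op (bb e.unop) • x.q⟩
  one_smul x := by
    change (⟨op (tt (1 : E K A)) • x.p + op (aa (1 : E K A)) • x.q,
      op (bb (1 : E K A)) • x.q⟩ : FX K A X) = x
    ext <;> simp
  mul_smul e e' x := by
    change (⟨op (tt (e'.unop * e.unop)) • x.p + op (aa (e'.unop * e.unop)) • x.q,
      op (bb (e'.unop * e.unop)) • x.q⟩ : FX K A X) =
      ⟨op (tt e.unop) • (op (tt e'.unop) • x.p + op (aa e'.unop) • x.q) +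
        op (aa e.unop) • (op (bb e'.unop) • x.q), op (bb e.unop) • (op (bb e'.unop) • x.q)⟩
    ext
    · simp [mul_smul, add_smul, add_assoc]
    · simp [mul_smul]
  smul_zero e := by
    change (⟨op (tt e.unop) • (0 : X) + op (aa e.unop) • (0 : X),
      op (bb e.unop) • (0 : X)⟩ : FX K A X) = 0
    ext <;> simp
  smul_add e x y := by
    change (⟨op (tt e.unop) • (x.p + y.p) + op (aa e.unop) • (x.q + y.q),
      op (bb e.unop) • (x.q + y.q)⟩ : FX K A X) =
      ⟨(op (tt e.unop) • x.p + op (aa e.unop) • x.q) +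
        (op (tt e.unop) • y.p + op (aa e.unop) • y.q),
        op (bb e.unop) • x.q + op (bb e.unop) • y.q⟩
    ext
    · simp; abel
    · simp
  add_smul e e' x := by
    change (⟨op (tt (e.unop + e'.unop)) • x.p + op (aa (e.unop + e'.unop)) • x.q,
      op (bb (e.unop + e'.unop)) • x.q⟩ : FX K A X) =
      ⟨(op (tt e.unop) • x.p + op (aa e.unop) • x.q) +
        (op (tt e'.unop) • x.p + op (aa e'.unop) • x.q),
        op (bb e.unop) • x.q + op (bb e'.unop) • x.q⟩
    ext
    · simp [add_smul]; abel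
    · simp [add_smul]
  zero_smul x := by
    change (⟨op (tt (0 : E K A)) • x.p + op (aa (0 : E K A)) • x.q,
      op (bb (0 : E K A)) • x.q⟩ : FX K A X) = 0
    ext <;> simp

@[simp] theorem p_smul (e : (E K A)ᵐᵒᵖ) (x : FX K A X) :
    (e • x).p = op (tt e.unop) • x.p + op (aa e.unop) • x.q := rfl
@[simp] theorem q_smul (e : (E K A)ᵐᵒᵖ) (x : FX K A X) :
    (e • x).q = op (bb e.unop) • x.q := rfl

variable {Y : Type u} [AddCommGroup Y] [Module Aᵐᵒᵖ Y]

/-- functoriality -/
def map (f : X →ₗ[Aᵐᵒᵖ] Y) : FX K A X →ₗ[(E K A)ᵐᵒᵖ] FX K A Y where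
  toFun x := ⟨f x.p, f x.q⟩
  map_add' x y := by ext <;> simp
  map_smul' e x := by ext <;> simp

@[simp] theorem map_p (f : X →ₗ[Aᵐᵒᵖ] Y) (x : FX K A X) : (map f x).p = f x.p := rfl
@[simp] theorem map_q (f : X →ₗ[Aᵐᵒᵖ] Y) (x : FX K A X) : (map f x).q = f x.q := rfl

theorem smul_row (a b : A) (x : FX K A X) :
    op (row a b : E K A) • x = ⟨op a • x.q, op b • x.q⟩ := by
  ext <;> simp

/-- every linear map comes from a linear map -/
theorem exists_map (g : FX K A X →ₗ[(E K A)ᵐᵒᵖ] FX K A Y) : ∃ f : X →ₗ[Aᵐᵒᵖ] Y, map f = g := by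
  have h1 : ∀ x : X, (g ⟨0, x⟩).p = 0 := by
    intro x
    have h : (⟨0, x⟩ : FX K A X) = op (row 0 1 : E K A) • ⟨0, x⟩ := by
      rw [smul_row]; ext <;> simp
    rw [h, map_smul, smul_row]
    simp
  have h2 : ∀ (x : X) (b : A), (g ⟨0, op b • x⟩).q = op b • (g ⟨0, x⟩).q := by
    intro x b
    have h : (⟨0, op b • x⟩ : FX K A X) = op (row 0 b : E K A) • ⟨0, x⟩ := by
      rw [smul_row]; ext <;> simp
    rw [h, map_smul, smul_row]
  refine ⟨{ toFun := fun x => (g ⟨0, x⟩).q, map_add' := ?_, map_smul' := ?_ }, ?_⟩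
  · intro x y
    have h : (⟨0, x + y⟩ : FX K A X) = ⟨0, x⟩ + ⟨0, y⟩ := by ext <;> simp
    rw [h, map_add]
    rfl
  · intro b x
    exact h2 x b.unop
  · refine LinearMap.ext fun x => ?_
    have h : x = op (row 1 0 : E K A) • ⟨0, x.p⟩ + ⟨0, x.q⟩ := by
      rw [smul_row]; ext <;> simp
    have h3 : g x = op (row 1 0 : E K A) • g ⟨0, x.p⟩ + g ⟨0, x.q⟩ := by
      conv_lhs => rw [h]
      rw [map_add, map_smul]
    rw [h3, smul_row]
    ext
    · simp [h1]
    · simp

theorem map_inj {f f' : X →ₗ[Aᵐᵒᵖ] Y} (h : (map f : FX K A X →ₗ[(E K A)ᵐᵒᵖ] FX K A Y) = map f') :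
    f = f' := by
  refine LinearMap.ext fun x => ?_
  have := congrArg (fun g : FX K A X →ₗ[(E K A)ᵐᵒᵖ] FX K A Y => (g ⟨0, x⟩).q) h
  exact this

instance finite [Module.Finite Aᵐᵒᵖ X] : Module.Finite (E K A)ᵐᵒᵖ (FX K A X) := by
  obtain ⟨s, hs⟩ := (inferInstance : Module.Finite Aᵐᵒᵖ X).fg_top
  classical
  refine ⟨⟨s.image fun x => ⟨0, x⟩, ?_⟩⟩
  rw [eq_top_iff]
  have h : ∀ x : X, (⟨0, x⟩ : FX K A X) ∈
      Submodule.span (E K A)ᵐᵒᵖ ((s.image fun x => (⟨0, x⟩ : FX K A X)) : Set (FX K A X)) := by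
    intro x
    have hx : x ∈ Submodule.span Aᵐᵒᵖ (s : Set X) := by rw [hs]; trivial
    induction hx using Submodule.span_induction with
    | mem y hy =>
      refine Submodule.subset_span ?_
      simpa using hy
    | zero => exact Submodule.zero_mem _
    | add y z _ _ hy hz =>
      have := Submodule.add_mem _ hy hz
      have h' : (⟨0, y + z⟩ : FX K A X) = ⟨0, y⟩ + ⟨0, z⟩ := by ext <;> simp
      rw [h']
      exact this
    | smul b y _ hy =>
      have h' : (⟨0, b • y⟩ : FX K A X) = op (row 0 b.unop : E K A) • ⟨0, y⟩ := by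
        rw [smul_row]; ext <;> simp
      rw [h']
      exact Submodule.smul_mem _ _ hy
  intro x _
  have h' : x = op (row 1 0 : E K A) • ⟨0, x.p⟩ + ⟨0, x.q⟩ := by
    rw [smul_row]; ext <;> simp
  rw [h']
  exact Submodule.add_mem _ (Submodule.smul_mem _ _ (h _)) (h _)

/-! ### projectivity -/

/-- the module `e₂E` is projective -/
instance projective_reg : Module.Projective (E K A)ᵐᵒᵖ (FX K A Aᵐᵒᵖ) := by
  let j : FX K A Aᵐᵒᵖ →ₗ[(E K A)ᵐᵒᵖ] (E K A)ᵐᵒᵖ :=
    { toFun := fun x => op (row x.p.unop x.q.unop)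
      map_add' := by
        intro x y
        apply unop_injective
        refine LinearMap.ext fun z => MM.ext ?_ ?_
        · simp
        · simp [add_mul]; abel
      map_smul' := by
        intro e x
        apply unop_injective
        change (row _ _ : E K A) = row x.p.unop x.q.unop * e.unop
        rw [row_mul]
        simp }
  let π : (E K A)ᵐᵒᵖ →ₗ[(E K A)ᵐᵒᵖ] FX K A Aᵐᵒᵖ :=
    { toFun := fun e => ⟨op (aa e.unop), op (bb e.unop)⟩
      map_add' := by intro x y; ext <;> simp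
      map_smul' := by
        intro e x
        ext
        · simp
        · simp }
  refine Module.Projective.of_split j π ?_
  refine LinearMap.ext fun x => ?_
  ext <;> simp [j, π]

instance projective_finsupp (ι : Type u) : Module.Projective (E K A)ᵐᵒᵖ (FX K A (ι →₀ Aᵐᵒᵖ)) := by
  classical
  have : Module.Projective (E K A)ᵐᵒᵖ (ι →₀ FX K A Aᵐᵒᵖ) :=
    Module.Projective.of_equiv (finsuppLequivDFinsupp (E K A)ᵐᵒᵖ).symm
  let j : FX K A (ι →₀ Aᵐᵒᵖ) →ₗ[(E K A)ᵐᵒᵖ] (ι →₀ FX K A Aᵐᵒᵖ) :=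
    { toFun := fun x => Finsupp.zipWith (fun a b => (⟨a, b⟩ : FX K A Aᵐᵒᵖ)) rfl x.p x.q
      map_add' := by
        intro x y
        refine Finsupp.ext fun i => ?_
        simp [Finsupp.zipWith_apply]
        rfl
      map_smul' := by
        intro e x
        refine Finsupp.ext fun i => ?_
        simp only [Finsupp.zipWith_apply, RingHom.id_apply, Finsupp.smul_apply]
        ext <;> simp }
  let π : (ι →₀ FX K A Aᵐᵒᵖ) →ₗ[(E K A)ᵐᵒᵖ] FX K A (ι →₀ Aᵐᵒᵖ) :=
    { toFun := fun u => ⟨u.mapRange FX.p rfl, u.mapRange FX.q rfl⟩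
      map_add' := by
        intro x y
        ext <;> simp
      map_smul' := by
        intro e x
        ext <;> simp }
  refine Module.Projective.of_split j π ?_
  refine LinearMap.ext fun x => ?_
  ext <;> simp [j, π]

theorem projective [Module.Projective Aᵐᵒᵖ X] : Module.Projective (E K A)ᵐᵒᵖ (FX K A X) := by
  obtain ⟨s, hs⟩ := Module.projective_def'.1 (inferInstance : Module.Projective Aᵐᵒᵖ X)
  refine Module.Projective.of_split (map s) (map (Finsupp.linearCombination Aᵐᵒᵖ id)) ?_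
  refine LinearMap.ext fun x => ?_
  have h : ∀ y : X, Finsupp.linearCombination Aᵐᵒᵖ id (s y) = y := fun y => LinearMap.congr_fun hs y
  ext
  · simp [h]
  · simp [h]

end FX

end obj

end Pool.Agent.H379.GS
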